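import Pool.Agent.R785.RO.Cyc

set_option autoImplicit false

/-!
# A closed manifold of nonpositive curvature with an element which is not rank-one and has infinite
cyclic stable centraliser

The Riemannian product `ℍ × ℍ` of two hyperbolic planes is a Hadamard manifold. We construct a
subgroup `Γ` of `SL(2,ℝ) × SL(2,ℝ)` which acts freely, properly discontinuously and cocompactly on
it, so that `M = Γ \ (ℍ × ℍ)` is a compact Riemannian manifold of nonpositive sectional curvature
with universal cover `ℍ × ℍ` and fundamental group `Γ`, and an element `g` of `Γ` which is hyperbolic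
in the first factor and an irrational rotation in the second factor. The axis of `g` bounds a flat
half-plane, but the stable centraliser of `g` is infinite cyclic.

`Γ` is a congruence subgroup of the norm one units of an order of the quaternion algebra `(5, √2)`
over `ℚ(√2)`.
-/

namespace Pool.Agent.Results.MP_adbdc7_gt.NotRankOneCyclicCentraliser

open UpperHalfPlane
open scoped MatrixGroups

/-- The Riemannian product of two hyperbolic planes: the product `ℍ × ℍ` of two copies of the upper
half plane (with its hyperbolic distance), with the `L²` product distance. -/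
abbrev HH : Type := WithLp 2 (ℍ × ℍ)

/-- A pair of matrices of `SL(2,ℝ)` acts on `ℍ × ℍ` by Möbius transformations of the two factors. -/
noncomputable def act (g : SL(2, ℝ) × SL(2, ℝ)) (x : HH) : HH :=
  WithLp.toLp 2 (g.1 • x.fst, g.2 • x.snd)

/-- `γ` is an axis of the isometry `f`: a geodesic line on which `f` acts by a nontrivial
translation. -/
def IsAxis {X : Type} [MetricSpace X] (f : X → X) (γ : ℝ → X) : Prop :=
  Isometry γ ∧ ∃ τ : ℝ, τ ≠ 0 ∧ ∀ t, f (γ t) = γ (t + τ)

/-- The line `γ` bounds a flat half-plane: there is an isometric embedding `F` of the Euclidean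
half-plane `{(s, t) | 0 ≤ t}` with `F (s, 0) = γ s`. -/
def BoundsFlatHalfPlane {X : Type} [MetricSpace X] (γ : ℝ → X) : Prop :=
  ∃ F : ℝ → ℝ → X, (∀ s, F s 0 = γ s) ∧
    ∀ s t s' t' : ℝ, 0 ≤ t → 0 ≤ t' → dist (F s t) (F s' t') = √((s - s') ^ 2 + (t - t') ^ 2)

/-- `f` is a rank-one isometry: it has an axis, and no axis of it bounds a flat half-plane. -/
def IsRankOne {X : Type} [MetricSpace X] (f : X → X) : Prop :=
  (∃ γ, IsAxis f γ) ∧ ∀ γ, IsAxis f γ → ¬ BoundsFlatHalfPlane γ

/-- The stable centraliser of `g`: all elements which commute with a positive power of `g`. -/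
def stableCentraliser {G : Type} [Group G] (g : G) : Subgroup G where
  carrier := {h | ∃ n : ℕ, 1 ≤ n ∧ h * g ^ n = g ^ n * h}
  one_mem' := ⟨1, le_rfl, by simp⟩
  mul_mem' := by
    rintro a b ⟨m, hm, ha⟩ ⟨n, hn, hb⟩
    refine ⟨m * n, Nat.one_le_iff_ne_zero.2 (by positivity), ?_⟩
    have ha' : a * g ^ (m * n) = g ^ (m * n) * a := by
      rw [pow_mul]; exact ((show Commute a (g ^ m) from ha).pow_right n)
    have hb' : b * g ^ (m * n) = g ^ (m * n) * b := by
      rw [mul_comm m n, pow_mul]; exact ((show Commute b (g ^ n) from hb).pow_right m)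
    rw [mul_assoc, hb', ← mul_assoc, ha', mul_assoc]
  inv_mem' := by
    rintro a ⟨m, hm, ha⟩
    exact ⟨m, hm, (show Commute a (g ^ m) from ha).inv_left⟩

/-- There is a subgroup `Γ` of `SL(2,ℝ) × SL(2,ℝ)` which acts freely, properly discontinuously,
cocompactly and by isometries on the product of two hyperbolic planes, and an element `g ≠ 1` of `Γ`
which has an axis that bounds a flat half-plane, so that `g` is not rank-one, although the stable
centraliser of `g` in `Γ` is infinite cyclic. -/
theorem result :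
    ∃ Γ : Subgroup (SL(2, ℝ) × SL(2, ℝ)),
      (∀ g ∈ Γ, ∀ x y : HH, dist (act g x) (act g y) = dist x y) ∧
      (∀ g ∈ Γ, ∀ x : HH, act g x = x → g = 1) ∧
      (∀ K : Set HH, IsCompact K → {g | g ∈ Γ ∧ (act g '' K ∩ K).Nonempty}.Finite) ∧
      (∃ K : Set HH, IsCompact K ∧ ∀ x, ∃ g ∈ Γ, act g x ∈ K) ∧
      ∃ g : Γ, g ≠ 1 ∧ (∃ γ, IsAxis (act g) γ ∧ BoundsFlatHalfPlane γ) ∧ ¬ IsRankOne (act g) ∧
        Nonempty (stableCentraliser g ≃* Multiplicative ℤ) := by
  refine ⟨R785.RO.Gm, fun g _ => R785.RO.dist_act g, R785.RO.free', R785.RO.pd, R785.RO.coc, ?_⟩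
  obtain ⟨g0, hg0, e1, e2⟩ := R785.RO.exists_g0
  obtain ⟨m1, m2, m3⟩ := R785.RO.q0_mu
  set μ : ℝ := R785.RO.s1 R785.RO.q0.re + R785.RO.be * R785.RO.s1 R785.RO.q0.imJ with hμ
  have hlog : 0 < Real.log (μ ^ 2) := Real.log_pos (one_lt_pow₀ m1 (by norm_num))
  have htr0 : ∀ t, act g0 (R785.RO.ax t) = R785.RO.ax (t + Real.log (μ ^ 2)) :=
    R785.RO.translate g0 R785.RO.q0 e1 e2 rfl rfl
  have hax : IsAxis (act g0) R785.RO.ax := ⟨R785.RO.isometry_ax, _, hlog.ne', htr0⟩
  have hfl : BoundsFlatHalfPlane R785.RO.ax :=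
    ⟨fun s t => WithLp.toLp 2 (R785.RO.pt s, R785.RO.pt t), fun s => rfl,
      fun s t s' t' _ _ => R785.RO.dist_flat s t s' t'⟩
  set g : R785.RO.Gm := ⟨g0, hg0⟩ with hg
  refine ⟨g, ?_, ⟨_, hax, hfl⟩, fun h => h.2 _ hax hfl, ?_⟩
  · intro h1
    have h2 : g0 = 1 := congrArg Subtype.val h1
    have h3 := htr0 0
    rw [h2] at h3
    have h4 : act 1 (R785.RO.ax 0) = R785.RO.ax 0 := R785.RO.act_one _
    rw [h4] at h3
    have := R785.RO.isometry_ax.injective h3
    linarith
  -- every element of the stable centraliser translates the axis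
  have hST : ∀ h : stableCentraliser g, ∃ τ : ℝ, ∀ t,
      act (h : R785.RO.Gm) (R785.RO.ax t) = R785.RO.ax (t + τ) := by
    rintro ⟨⟨h, q, hq, f1, f2⟩, n, hn, hc⟩
    have hpow : ∀ k : ℕ, (((g0 ^ k).1 : SL(2, ℝ)) : Matrix (Fin 2) (Fin 2) ℝ) =
        R785.RO.M1 (R785.RO.q0 ^ k) := by
      intro k
      induction k with
      | zero => simp [R785.RO.M1_one]
      | succ k ih =>
        rw [pow_succ, pow_succ, R785.RO.M1_mul, ← ih, ← e1]
        simp
    have hc1 : h * g0 ^ n = g0 ^ n * h := congrArg Subtype.val hc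
    have hc2 : R785.RO.M1 (q * R785.RO.q0 ^ n) = R785.RO.M1 (R785.RO.q0 ^ n * q) := by
      rw [R785.RO.M1_mul, R785.RO.M1_mul, ← hpow, ← f1]
      have := congrArg (fun u : SL(2, ℝ) × SL(2, ℝ) => (u.1 : Matrix (Fin 2) (Fin 2) ℝ)) hc1
      simpa using this
    obtain ⟨hi, hk⟩ := R785.RO.comm_q0 n hn q (R785.RO.M1_inj hc2)
    exact ⟨_, R785.RO.translate h q f1 f2 hi hk⟩
  choose τ hτ using hST
  have huniq : ∀ a b : ℝ, R785.RO.ax (0 + a) = R785.RO.ax (0 + b) → a = b := by
    intro a b h
    have := R785.RO.isometry_ax.injective h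
    linarith
  have hact1 : ∀ x, act ((1 : R785.RO.Gm) : SL(2, ℝ) × SL(2, ℝ)) x = x := R785.RO.act_one
  let ψ : stableCentraliser g →* Multiplicative ℝ :=
    { toFun := fun h => Multiplicative.ofAdd (τ h)
      map_one' := by
        have h1 : τ 1 = 0 := by
          apply huniq
          rw [← hτ 1 0, add_zero]
          exact hact1 _
        rw [h1]
        rfl
      map_mul' := by
        intro a b
        have h1 : τ (a * b) = τ a + τ b := by
          apply huniq
          have h2 := hτ (a * b) 0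
          have h3 : act ((a * b : stableCentraliser g) : R785.RO.Gm) (R785.RO.ax 0) =
              act (a : R785.RO.Gm) (act (b : R785.RO.Gm) (R785.RO.ax 0)) :=
            R785.RO.act_mul _ _ _
          rw [h3, hτ b, hτ a] at h2
          rw [← h2]
          congr 1
          ring
        rw [h1]
        rfl }
  have hψ : ∀ h, Multiplicative.toAdd (ψ h) = τ h := fun h => rfl
  refine R785.RO.cyc ψ ?_ ?_ ?_
  · rw [injective_iff_map_eq_one]
    intro h hh
    have h1 : τ h = 0 := by
      rw [← hψ, hh]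
      rfl
    have h2 := hτ h 0
    rw [h1, add_zero] at h2
    have h3 := R785.RO.free' _ (h : R785.RO.Gm).2 _ h2
    exact Subtype.ext (Subtype.ext h3)
  · have hK : IsCompact (R785.RO.ax '' Set.Icc (-1) 1) :=
      isCompact_Icc.image R785.RO.isometry_ax.continuous
    have hfin := R785.RO.pd _ hK
    have hinj : Function.Injective (fun h : stableCentraliser g =>
        (((h : R785.RO.Gm) : SL(2, ℝ) × SL(2, ℝ)))) := by
      intro a b hab
      exact Subtype.ext (Subtype.ext hab)
    refine (hfin.preimage hinj.injOn).subset ?_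
    intro h hh
    have hh' : |τ h| ≤ 1 := hh
    refine ⟨(h : R785.RO.Gm).2, R785.RO.ax (τ h), ⟨R785.RO.ax 0, ⟨0, by norm_num, rfl⟩, ?_⟩,
      ⟨τ h, abs_le.1 hh', rfl⟩⟩
    have := hτ h 0
    rw [zero_add] at this
    exact this
  · have hgm : g ∈ stableCentraliser g := ⟨1, le_rfl, by rw [pow_one]⟩
    refine ⟨⟨g, hgm⟩, ?_⟩
    intro h1
    have h2 : τ ⟨g, hgm⟩ = 0 := by
      rw [← hψ, h1]
      rfl
    have h3 := hτ ⟨g, hgm⟩ 0
    rw [h2] at h3
    have h4 := htr0 0
    have h5 : R785.RO.ax (0 + 0) = R785.RO.ax (0 + Real.log (μ ^ 2)) := h3.symm.trans h4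
    have := huniq _ _ h5
    linarith

end Pool.Agent.Results.MP_adbdc7_gt.NotRankOneCyclicCentraliser
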